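import Mathlib
import Pool.Agent.Q14.Betti
import Pool.Agent.Q14.Mono

set_option autoImplicit false

/-!
The degree of the Kodiyalam polynomial of a monomial ideal may depend on the field.

Let `x_0, …, x_5` be the vertices of the six-vertex triangulation of the real projective plane, with
Stanley–Reisner ideal `I_Δ`, and let `J = (z_1^2, z_2^2, z_1 z_2 I_Δ)` in eight variables. A monomial
`x^c z_1^a z_2^b` is in `J ^ m` iff `a + b ≥ 2 m + 1`, or `a + b = 2 m` and `a` is even or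
`x^c ∈ I_Δ`. Hence `Tor_5 (J ^ m)` is the sum of `m` copies of `Tor_3 (I_Δ)`, which vanishes in
characteristic different from two but not in characteristic two.
-/

namespace Pool.Agent.Results.MP_76aa63_al.ProjectivePlane

open Finset MvPolynomial Pool.Agent.Q14.Betti

/-- The ten minimal non-faces of the six-vertex triangulation of the real projective plane with
facets `012, 013, 024, 035, 045, 125, 134, 145, 234, 235`. -/
def nonfaces : Finset (Finset (Fin 8)) :=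
  {{3, 4, 5}, {2, 4, 5}, {1, 3, 5}, {1, 2, 4}, {1, 2, 3}, {0, 3, 4}, {0, 2, 5}, {0, 2, 3},
    {0, 1, 5}, {0, 1, 4}}

/-- The exponent of the squarefree monomial of a set of variables. -/
noncomputable def sqf (σ : Finset (Fin 8)) : Fin 8 →₀ ℕ :=
  Finsupp.equivFunOnFinite.symm (fun v => if v ∈ σ then 1 else 0)

/-- The exponents of the generators `z_1^2, z_2^2, z_1 z_2 x^N` (`z_1 = x_6`, `z_2 = x_7`). -/
noncomputable def gens : Finset (Fin 8 →₀ ℕ) :=
  {Finsupp.single 6 2, Finsupp.single 7 2} ∪ nonfaces.image fun N => sqf (insert 6 (insert 7 N))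

/-! ### Monomials in the powers -/

/-- divisible by a monomial of the Stanley-Reisner ideal -/
def InK (c : Fin 8 → ℕ) : Prop := ∃ N ∈ nonfaces, ∀ v ∈ N, 1 ≤ c v

/-- exponents of the monomials in the `m`-th power -/
def P (m : ℕ) (c : Fin 8 → ℕ) : Prop :=
  2 * m + 1 ≤ c 6 + c 7 ∨ (c 6 + c 7 = 2 * m ∧ (Even (c 6) ∨ InK c))

lemma InK.mono {c c' : Fin 8 → ℕ} (h : ∀ v, c v ≤ c' v) (hc : InK c) : InK c' := by
  obtain ⟨N, hN, h1⟩ := hc
  exact ⟨N, hN, fun v hv => (h1 v hv).trans (h v)⟩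

lemma P.mono {m : ℕ} {c c' : Fin 8 → ℕ} (h : ∀ v, c v ≤ c' v) (hc : P m c) : P m c' := by
  have h6 := h 6
  have h7 := h 7
  rcases hc with hc | ⟨hc, h1⟩
  · exact Or.inl (by omega)
  · by_cases hs : 2 * m + 1 ≤ c' 6 + c' 7
    · exact Or.inl hs
    · right
      have e6 : c' 6 = c 6 := by omega
      refine ⟨by omega, ?_⟩
      rcases h1 with h1 | h1
      · exact Or.inl (by rw [e6]; exact h1)
      · exact Or.inr (h1.mono h)

lemma sqf_apply (σ : Finset (Fin 8)) (v : Fin 8) : sqf σ v = if v ∈ σ then 1 else 0 := rfl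

lemma nonfaces_sub : ∀ N ∈ nonfaces, (6 : Fin 8) ∉ N ∧ (7 : Fin 8) ∉ N ∧ N.card = 3 := by decide +kernel

lemma P_add {m : ℕ} {v g : Fin 8 →₀ ℕ} (hv : P m v) (hg : g ∈ gens) : P (m + 1) ⇑(v + g) := by
  rw [gens, mem_union, mem_insert, mem_singleton, mem_image] at hg
  rcases hg with (rfl | rfl) | ⟨N, hN, rfl⟩
  · have e6 : (v + Finsupp.single 6 2 : Fin 8 →₀ ℕ) 6 = v 6 + 2 := by simp
    have e7 : (v + Finsupp.single 6 2 : Fin 8 →₀ ℕ) 7 = v 7 := by simp
    rcases hv with h | ⟨h, h1⟩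
    · exact Or.inl (by rw [e6, e7]; omega)
    · refine Or.inr ⟨by rw [e6, e7]; omega, ?_⟩
      rcases h1 with h1 | h1
      · left; rw [e6]; exact h1.add (by decide)
      · right; exact h1.mono (fun w => by simp)
  · have e6 : (v + Finsupp.single 7 2 : Fin 8 →₀ ℕ) 6 = v 6 := by simp
    have e7 : (v + Finsupp.single 7 2 : Fin 8 →₀ ℕ) 7 = v 7 + 2 := by simp
    rcases hv with h | ⟨h, h1⟩
    · exact Or.inl (by rw [e6, e7]; omega)
    · refine Or.inr ⟨by rw [e6, e7]; omega, ?_⟩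
      rcases h1 with h1 | h1
      · left; rw [e6]; exact h1
      · right; exact h1.mono (fun w => by simp)
  · have e6 : (v + sqf (insert 6 (insert 7 N))) 6 = v 6 + 1 := by
      rw [Finsupp.add_apply, sqf_apply, if_pos (by simp)]
    have e7 : (v + sqf (insert 6 (insert 7 N))) 7 = v 7 + 1 := by
      rw [Finsupp.add_apply, sqf_apply, if_pos (by simp)]
    rcases hv with h | ⟨h, h1⟩
    · exact Or.inl (by rw [e6, e7]; omega)
    · refine Or.inr ⟨by rw [e6, e7]; omega, Or.inr ⟨N, hN, fun w hw => ?_⟩⟩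
      rw [Finsupp.add_apply, sqf_apply, if_pos (by simp [hw])]
      omega

lemma exists_gen {m : ℕ} {u : Fin 8 →₀ ℕ} (h : P (m + 1) u) :
    ∃ g ∈ gens, g ≤ u ∧ P m ⇑(u - g) := by
  have case6 : 2 ≤ u 6 → P m ⇑(u - Finsupp.single 6 2 : Fin 8 →₀ ℕ) → ∃ g ∈ gens, g ≤ u ∧ P m ⇑(u - g) := by
    intro h2 hP
    exact ⟨Finsupp.single 6 2, by simp [gens], Finsupp.single_le_iff.2 h2, hP⟩
  have case7 : 2 ≤ u 7 → P m ⇑(u - Finsupp.single 7 2 : Fin 8 →₀ ℕ) → ∃ g ∈ gens, g ≤ u ∧ P m ⇑(u - g) := by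
    intro h2 hP
    exact ⟨Finsupp.single 7 2, by simp [gens], Finsupp.single_le_iff.2 h2, hP⟩
  have e66 : (u - Finsupp.single 6 2 : Fin 8 →₀ ℕ) 6 = u 6 - 2 := by simp
  have e67 : (u - Finsupp.single 6 2 : Fin 8 →₀ ℕ) 7 = u 7 := by simp
  have e76 : (u - Finsupp.single 7 2 : Fin 8 →₀ ℕ) 6 = u 6 := by simp
  have e77 : (u - Finsupp.single 7 2 : Fin 8 →₀ ℕ) 7 = u 7 - 2 := by simp
  rcases h with h | ⟨h, h1⟩
  · by_cases h2 : 2 ≤ u 6
    · exact case6 h2 (Or.inl (by rw [e66, e67]; omega))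
    · exact case7 (by omega) (Or.inl (by rw [e76, e77]; omega))
  · by_cases hev : Even (u 6)
    · by_cases h2 : 2 ≤ u 6
      · refine case6 h2 (Or.inr ⟨by rw [e66, e67]; omega, Or.inl ?_⟩)
        rw [e66]
        exact (Nat.even_sub h2).2 (by simp [hev])
      · have hev' := hev
        obtain ⟨k, hk⟩ := hev
        refine case7 (by omega) (Or.inr ⟨by rw [e76, e77]; omega, Or.inl ?_⟩)
        rw [e76]
        exact hev'
    · have h3 : InK u := h1.resolve_left hev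
      rw [Nat.not_even_iff_odd] at hev
      obtain ⟨k, hk⟩ := hev
      obtain ⟨N, hN, hNu⟩ := h3
      have hle : sqf (insert 6 (insert 7 N)) ≤ u := by
        intro v
        rw [sqf_apply]
        split_ifs with hv
        · rw [mem_insert, mem_insert] at hv
          rcases hv with rfl | rfl | hv
          · omega
          · omega
          · exact hNu v hv
        · exact Nat.zero_le _
      refine ⟨sqf (insert 6 (insert 7 N)), ?_, hle, ?_⟩
      · rw [gens, mem_union, mem_image]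
        exact Or.inr ⟨N, hN, rfl⟩
      · have f6 : (u - sqf (insert 6 (insert 7 N))) 6 = u 6 - 1 := by
          rw [Finsupp.tsub_apply, sqf_apply, if_pos (by simp)]
        have f7 : (u - sqf (insert 6 (insert 7 N))) 7 = u 7 - 1 := by
          rw [Finsupp.tsub_apply, sqf_apply, if_pos (by simp)]
        refine Or.inr ⟨by rw [f6, f7]; omega, Or.inl ?_⟩
        rw [f6, hk]
        simp

theorem monomial_mem (K : Type) [Field K] (m : ℕ) (u : Fin 8 →₀ ℕ) :
    (monomial u (1 : K)) ∈ monIdeal K gens ^ m ↔ P m u := by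
  induction m generalizing u with
  | zero =>
    rw [pow_zero, Ideal.one_eq_top]
    refine ⟨fun _ => ?_, fun _ => Submodule.mem_top⟩
    by_cases h : 2 * 0 + 1 ≤ u 6 + u 7
    · exact Or.inl h
    · refine Or.inr ⟨by omega, Or.inl ?_⟩
      have : u 6 = 0 := by omega
      rw [this]
      exact Even.zero
  | succ m ih =>
    rw [pow_succ]
    constructor
    · intro h
      obtain ⟨v, w, hv, hw, rfl⟩ := Q14.Mono.IsMon.monomial_mem_mul
        ((Q14.Mono.isMon_span _).pow m) (Q14.Mono.isMon_span _) h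
      obtain ⟨g, hg, hgw⟩ := (Q14.Mono.monomial_mem_span_iff _ _).1 hw
      refine (P_add ((ih v).1 hv) hg).mono fun i => ?_
      rw [Finsupp.add_apply, Finsupp.add_apply]
      have := hgw i
      omega
    · intro h
      obtain ⟨g, hg, hle, hP⟩ := exists_gen h
      have h1 : (monomial u (1 : K)) = monomial (u - g) 1 * monomial g 1 := by
        rw [monomial_mul, tsub_add_cancel_of_le hle, one_mul]
      rw [h1]
      exact Ideal.mul_mem_mul ((ih _).2 hP) (Ideal.subset_span ⟨g, hg, rfl⟩)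

theorem mem_pow (K : Type) [Field K] (m : ℕ) (p : MvPolynomial (Fin 8) K) :
    p ∈ monIdeal K gens ^ m ↔ ∀ c ∈ p.support, P m ⇑c := by
  have h : Q14.Mono.IsMon (monIdeal K gens ^ m) := (Q14.Mono.isMon_span _).pow m
  rw [h.mem_iff]
  exact forall₂_congr fun c _ => monomial_mem K m c

/-! ### Combinatorial Koszul complexes -/

open Pool.Agent.H677R3.EdgeReg (cd sg hv KK homotopy ind)

section Toggle

variable {K : Type} [Field K]

lemma toggle {R : Finset (Fin 8) → Prop} {i : ℕ} {a : Finset (Fin 8) → K} (v : Fin 8)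
    (ha : ∀ T, a T ≠ 0 → T.card = i) (hc : ∀ T, cd a T = 0)
    (h : ∀ T, a T ≠ 0 → v ∉ T → R (insert v T)) :
    ∃ g : Finset (Fin 8) → K, (∀ T, g T ≠ 0 → R T ∧ T.card = i + 1) ∧ ∀ T, cd g T = a T := by
  refine ⟨hv v a, ?_, ?_⟩
  · intro T hT
    unfold hv at hT
    split_ifs at hT with hvT
    · have h1 : a (T.erase v) ≠ 0 := fun h0 => hT (by rw [h0, mul_zero])
      have h2 := h _ h1 (notMem_erase v T)
      rw [insert_erase hvT] at h2
      refine ⟨h2, ?_⟩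
      rw [← ha _ h1, card_erase_add_one hvT]
    · exact absurd rfl hT
  · intro T
    have h1 := homotopy v a T
    have h2 : hv v (cd a) T = 0 := by
      unfold hv
      rw [hc, mul_zero, ite_self]
    rwa [h2, add_zero] at h1

/-- the five-element sets `F ∪ {6, 7}` with `F` not a facet -/
def nonF : Finset (Finset (Fin 8)) :=
  {{0, 1, 4, 6, 7}, {0, 1, 5, 6, 7}, {0, 2, 3, 6, 7}, {0, 2, 5, 6, 7}, {0, 3, 4, 6, 7},
    {1, 2, 3, 6, 7}, {1, 2, 4, 6, 7}, {1, 3, 5, 6, 7}, {2, 4, 5, 6, 7}, {3, 4, 5, 6, 7}}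

lemma sgv (K : Type) [Field K] (j : Fin 8) (T : Finset (Fin 8)) (c : ℕ)
    (h : (T.filter (· < j)).card = c) : sg K j T = (-1) ^ c := by
  unfold sg
  rw [h]

lemma pair_01 {a : Finset (Fin 8) → K} (hc : ∀ T, cd a T = 0) (hz : ∀ T, T ∈ nonF → a T = 0) :
    a {0, 1, 2, 6, 7} + a {0, 1, 3, 6, 7} = 0 := by
  have h := hc {0, 1, 6, 7}
  rw [cd, (by decide : ({0, 1, 6, 7} : Finset (Fin 8))ᶜ = {2, 3, 4, 5}), Finset.sum_insert (by decide),
    Finset.sum_insert (by decide), Finset.sum_insert (by decide), Finset.sum_singleton,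
    sgv K 2 {0, 1, 6, 7} 2 (by decide),
    (by decide : insert (2 : Fin 8) ({0, 1, 6, 7} : Finset (Fin 8)) = {0, 1, 2, 6, 7}),
    sgv K 3 {0, 1, 6, 7} 2 (by decide),
    (by decide : insert (3 : Fin 8) ({0, 1, 6, 7} : Finset (Fin 8)) = {0, 1, 3, 6, 7}),
    sgv K 4 {0, 1, 6, 7} 2 (by decide),
    (by decide : insert (4 : Fin 8) ({0, 1, 6, 7} : Finset (Fin 8)) = {0, 1, 4, 6, 7}),
    sgv K 5 {0, 1, 6, 7} 2 (by decide),
    (by decide : insert (5 : Fin 8) ({0, 1, 6, 7} : Finset (Fin 8)) = {0, 1, 5, 6, 7}),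
    hz {0, 1, 4, 6, 7} (by decide), hz {0, 1, 5, 6, 7} (by decide)] at h
  linear_combination h

lemma pair_02 {a : Finset (Fin 8) → K} (hc : ∀ T, cd a T = 0) (hz : ∀ T, T ∈ nonF → a T = 0) :
    -a {0, 1, 2, 6, 7} + a {0, 2, 4, 6, 7} = 0 := by
  have h := hc {0, 2, 6, 7}
  rw [cd, (by decide : ({0, 2, 6, 7} : Finset (Fin 8))ᶜ = {1, 3, 4, 5}), Finset.sum_insert (by decide),
    Finset.sum_insert (by decide), Finset.sum_insert (by decide), Finset.sum_singleton,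
    sgv K 1 {0, 2, 6, 7} 1 (by decide),
    (by decide : insert (1 : Fin 8) ({0, 2, 6, 7} : Finset (Fin 8)) = {0, 1, 2, 6, 7}),
    sgv K 3 {0, 2, 6, 7} 2 (by decide),
    (by decide : insert (3 : Fin 8) ({0, 2, 6, 7} : Finset (Fin 8)) = {0, 2, 3, 6, 7}),
    sgv K 4 {0, 2, 6, 7} 2 (by decide),
    (by decide : insert (4 : Fin 8) ({0, 2, 6, 7} : Finset (Fin 8)) = {0, 2, 4, 6, 7}),
    sgv K 5 {0, 2, 6, 7} 2 (by decide),
    (by decide : insert (5 : Fin 8) ({0, 2, 6, 7} : Finset (Fin 8)) = {0, 2, 5, 6, 7}),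
    hz {0, 2, 3, 6, 7} (by decide), hz {0, 2, 5, 6, 7} (by decide)] at h
  linear_combination h

lemma pair_03 {a : Finset (Fin 8) → K} (hc : ∀ T, cd a T = 0) (hz : ∀ T, T ∈ nonF → a T = 0) :
    -a {0, 1, 3, 6, 7} + a {0, 3, 5, 6, 7} = 0 := by
  have h := hc {0, 3, 6, 7}
  rw [cd, (by decide : ({0, 3, 6, 7} : Finset (Fin 8))ᶜ = {1, 2, 4, 5}), Finset.sum_insert (by decide),
    Finset.sum_insert (by decide), Finset.sum_insert (by decide), Finset.sum_singleton,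
    sgv K 1 {0, 3, 6, 7} 1 (by decide),
    (by decide : insert (1 : Fin 8) ({0, 3, 6, 7} : Finset (Fin 8)) = {0, 1, 3, 6, 7}),
    sgv K 2 {0, 3, 6, 7} 1 (by decide),
    (by decide : insert (2 : Fin 8) ({0, 3, 6, 7} : Finset (Fin 8)) = {0, 2, 3, 6, 7}),
    sgv K 4 {0, 3, 6, 7} 2 (by decide),
    (by decide : insert (4 : Fin 8) ({0, 3, 6, 7} : Finset (Fin 8)) = {0, 3, 4, 6, 7}),
    sgv K 5 {0, 3, 6, 7} 2 (by decide),
    (by decide : insert (5 : Fin 8) ({0, 3, 6, 7} : Finset (Fin 8)) = {0, 3, 5, 6, 7}),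
    hz {0, 2, 3, 6, 7} (by decide), hz {0, 3, 4, 6, 7} (by decide)] at h
  linear_combination h

lemma pair_04 {a : Finset (Fin 8) → K} (hc : ∀ T, cd a T = 0) (hz : ∀ T, T ∈ nonF → a T = 0) :
    -a {0, 2, 4, 6, 7} + a {0, 4, 5, 6, 7} = 0 := by
  have h := hc {0, 4, 6, 7}
  rw [cd, (by decide : ({0, 4, 6, 7} : Finset (Fin 8))ᶜ = {1, 2, 3, 5}), Finset.sum_insert (by decide),
    Finset.sum_insert (by decide), Finset.sum_insert (by decide), Finset.sum_singleton,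
    sgv K 1 {0, 4, 6, 7} 1 (by decide),
    (by decide : insert (1 : Fin 8) ({0, 4, 6, 7} : Finset (Fin 8)) = {0, 1, 4, 6, 7}),
    sgv K 2 {0, 4, 6, 7} 1 (by decide),
    (by decide : insert (2 : Fin 8) ({0, 4, 6, 7} : Finset (Fin 8)) = {0, 2, 4, 6, 7}),
    sgv K 3 {0, 4, 6, 7} 1 (by decide),
    (by decide : insert (3 : Fin 8) ({0, 4, 6, 7} : Finset (Fin 8)) = {0, 3, 4, 6, 7}),
    sgv K 5 {0, 4, 6, 7} 2 (by decide),
    (by decide : insert (5 : Fin 8) ({0, 4, 6, 7} : Finset (Fin 8)) = {0, 4, 5, 6, 7}),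
    hz {0, 1, 4, 6, 7} (by decide), hz {0, 3, 4, 6, 7} (by decide)] at h
  linear_combination h

lemma pair_12 {a : Finset (Fin 8) → K} (hc : ∀ T, cd a T = 0) (hz : ∀ T, T ∈ nonF → a T = 0) :
    a {0, 1, 2, 6, 7} + a {1, 2, 5, 6, 7} = 0 := by
  have h := hc {1, 2, 6, 7}
  rw [cd, (by decide : ({1, 2, 6, 7} : Finset (Fin 8))ᶜ = {0, 3, 4, 5}), Finset.sum_insert (by decide),
    Finset.sum_insert (by decide), Finset.sum_insert (by decide), Finset.sum_singleton,
    sgv K 0 {1, 2, 6, 7} 0 (by decide),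
    (by decide : insert (0 : Fin 8) ({1, 2, 6, 7} : Finset (Fin 8)) = {0, 1, 2, 6, 7}),
    sgv K 3 {1, 2, 6, 7} 2 (by decide),
    (by decide : insert (3 : Fin 8) ({1, 2, 6, 7} : Finset (Fin 8)) = {1, 2, 3, 6, 7}),
    sgv K 4 {1, 2, 6, 7} 2 (by decide),
    (by decide : insert (4 : Fin 8) ({1, 2, 6, 7} : Finset (Fin 8)) = {1, 2, 4, 6, 7}),
    sgv K 5 {1, 2, 6, 7} 2 (by decide),
    (by decide : insert (5 : Fin 8) ({1, 2, 6, 7} : Finset (Fin 8)) = {1, 2, 5, 6, 7}),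
    hz {1, 2, 3, 6, 7} (by decide), hz {1, 2, 4, 6, 7} (by decide)] at h
  linear_combination h

lemma pair_15 {a : Finset (Fin 8) → K} (hc : ∀ T, cd a T = 0) (hz : ∀ T, T ∈ nonF → a T = 0) :
    -a {1, 2, 5, 6, 7} + -a {1, 4, 5, 6, 7} = 0 := by
  have h := hc {1, 5, 6, 7}
  rw [cd, (by decide : ({1, 5, 6, 7} : Finset (Fin 8))ᶜ = {0, 2, 3, 4}), Finset.sum_insert (by decide),
    Finset.sum_insert (by decide), Finset.sum_insert (by decide), Finset.sum_singleton,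
    sgv K 0 {1, 5, 6, 7} 0 (by decide),
    (by decide : insert (0 : Fin 8) ({1, 5, 6, 7} : Finset (Fin 8)) = {0, 1, 5, 6, 7}),
    sgv K 2 {1, 5, 6, 7} 1 (by decide),
    (by decide : insert (2 : Fin 8) ({1, 5, 6, 7} : Finset (Fin 8)) = {1, 2, 5, 6, 7}),
    sgv K 3 {1, 5, 6, 7} 1 (by decide),
    (by decide : insert (3 : Fin 8) ({1, 5, 6, 7} : Finset (Fin 8)) = {1, 3, 5, 6, 7}),
    sgv K 4 {1, 5, 6, 7} 1 (by decide),
    (by decide : insert (4 : Fin 8) ({1, 5, 6, 7} : Finset (Fin 8)) = {1, 4, 5, 6, 7}),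
    hz {0, 1, 5, 6, 7} (by decide), hz {1, 3, 5, 6, 7} (by decide)] at h
  linear_combination h

lemma pair_45 {a : Finset (Fin 8) → K} (hc : ∀ T, cd a T = 0) (hz : ∀ T, T ∈ nonF → a T = 0) :
    a {0, 4, 5, 6, 7} + a {1, 4, 5, 6, 7} = 0 := by
  have h := hc {4, 5, 6, 7}
  rw [cd, (by decide : ({4, 5, 6, 7} : Finset (Fin 8))ᶜ = {0, 1, 2, 3}), Finset.sum_insert (by decide),
    Finset.sum_insert (by decide), Finset.sum_insert (by decide), Finset.sum_singleton,
    sgv K 0 {4, 5, 6, 7} 0 (by decide),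
    (by decide : insert (0 : Fin 8) ({4, 5, 6, 7} : Finset (Fin 8)) = {0, 4, 5, 6, 7}),
    sgv K 1 {4, 5, 6, 7} 0 (by decide),
    (by decide : insert (1 : Fin 8) ({4, 5, 6, 7} : Finset (Fin 8)) = {1, 4, 5, 6, 7}),
    sgv K 2 {4, 5, 6, 7} 0 (by decide),
    (by decide : insert (2 : Fin 8) ({4, 5, 6, 7} : Finset (Fin 8)) = {2, 4, 5, 6, 7}),
    sgv K 3 {4, 5, 6, 7} 0 (by decide),
    (by decide : insert (3 : Fin 8) ({4, 5, 6, 7} : Finset (Fin 8)) = {3, 4, 5, 6, 7}),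
    hz {2, 4, 5, 6, 7} (by decide), hz {3, 4, 5, 6, 7} (by decide)] at h
  linear_combination h

lemma pair_13 {a : Finset (Fin 8) → K} (hc : ∀ T, cd a T = 0) (hz : ∀ T, T ∈ nonF → a T = 0) :
    a {0, 1, 3, 6, 7} + a {1, 3, 4, 6, 7} = 0 := by
  have h := hc {1, 3, 6, 7}
  rw [cd, (by decide : ({1, 3, 6, 7} : Finset (Fin 8))ᶜ = {0, 2, 4, 5}), Finset.sum_insert (by decide),
    Finset.sum_insert (by decide), Finset.sum_insert (by decide), Finset.sum_singleton,
    sgv K 0 {1, 3, 6, 7} 0 (by decide),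
    (by decide : insert (0 : Fin 8) ({1, 3, 6, 7} : Finset (Fin 8)) = {0, 1, 3, 6, 7}),
    sgv K 2 {1, 3, 6, 7} 1 (by decide),
    (by decide : insert (2 : Fin 8) ({1, 3, 6, 7} : Finset (Fin 8)) = {1, 2, 3, 6, 7}),
    sgv K 4 {1, 3, 6, 7} 2 (by decide),
    (by decide : insert (4 : Fin 8) ({1, 3, 6, 7} : Finset (Fin 8)) = {1, 3, 4, 6, 7}),
    sgv K 5 {1, 3, 6, 7} 2 (by decide),
    (by decide : insert (5 : Fin 8) ({1, 3, 6, 7} : Finset (Fin 8)) = {1, 3, 5, 6, 7}),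
    hz {1, 2, 3, 6, 7} (by decide), hz {1, 3, 5, 6, 7} (by decide)] at h
  linear_combination h

lemma pair_34 {a : Finset (Fin 8) → K} (hc : ∀ T, cd a T = 0) (hz : ∀ T, T ∈ nonF → a T = 0) :
    a {1, 3, 4, 6, 7} + a {2, 3, 4, 6, 7} = 0 := by
  have h := hc {3, 4, 6, 7}
  rw [cd, (by decide : ({3, 4, 6, 7} : Finset (Fin 8))ᶜ = {0, 1, 2, 5}), Finset.sum_insert (by decide),
    Finset.sum_insert (by decide), Finset.sum_insert (by decide), Finset.sum_singleton,
    sgv K 0 {3, 4, 6, 7} 0 (by decide),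
    (by decide : insert (0 : Fin 8) ({3, 4, 6, 7} : Finset (Fin 8)) = {0, 3, 4, 6, 7}),
    sgv K 1 {3, 4, 6, 7} 0 (by decide),
    (by decide : insert (1 : Fin 8) ({3, 4, 6, 7} : Finset (Fin 8)) = {1, 3, 4, 6, 7}),
    sgv K 2 {3, 4, 6, 7} 0 (by decide),
    (by decide : insert (2 : Fin 8) ({3, 4, 6, 7} : Finset (Fin 8)) = {2, 3, 4, 6, 7}),
    sgv K 5 {3, 4, 6, 7} 2 (by decide),
    (by decide : insert (5 : Fin 8) ({3, 4, 6, 7} : Finset (Fin 8)) = {3, 4, 5, 6, 7}),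
    hz {0, 3, 4, 6, 7} (by decide), hz {3, 4, 5, 6, 7} (by decide)] at h
  linear_combination h

lemma pair_23 {a : Finset (Fin 8) → K} (hc : ∀ T, cd a T = 0) (hz : ∀ T, T ∈ nonF → a T = 0) :
    a {2, 3, 4, 6, 7} + a {2, 3, 5, 6, 7} = 0 := by
  have h := hc {2, 3, 6, 7}
  rw [cd, (by decide : ({2, 3, 6, 7} : Finset (Fin 8))ᶜ = {0, 1, 4, 5}), Finset.sum_insert (by decide),
    Finset.sum_insert (by decide), Finset.sum_insert (by decide), Finset.sum_singleton,
    sgv K 0 {2, 3, 6, 7} 0 (by decide),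
    (by decide : insert (0 : Fin 8) ({2, 3, 6, 7} : Finset (Fin 8)) = {0, 2, 3, 6, 7}),
    sgv K 1 {2, 3, 6, 7} 0 (by decide),
    (by decide : insert (1 : Fin 8) ({2, 3, 6, 7} : Finset (Fin 8)) = {1, 2, 3, 6, 7}),
    sgv K 4 {2, 3, 6, 7} 2 (by decide),
    (by decide : insert (4 : Fin 8) ({2, 3, 6, 7} : Finset (Fin 8)) = {2, 3, 4, 6, 7}),
    sgv K 5 {2, 3, 6, 7} 2 (by decide),
    (by decide : insert (5 : Fin 8) ({2, 3, 6, 7} : Finset (Fin 8)) = {2, 3, 5, 6, 7}),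
    hz {0, 2, 3, 6, 7} (by decide), hz {1, 2, 3, 6, 7} (by decide)] at h
  linear_combination h

/-- the projective plane has no rational fundamental class -/
lemma rp2 (h2 : (2 : K) ≠ 0) {a : Finset (Fin 8) → K} (hc : ∀ T, cd a T = 0)
    (hz : ∀ T, T ∈ nonF → a T = 0) : ∀ N ∈ nonfaces, a Nᶜ = 0 := by
  have e01 := pair_01 hc hz
  have e02 := pair_02 hc hz
  have e03 := pair_03 hc hz
  have e04 := pair_04 hc hz
  have e12 := pair_12 hc hz
  have e15 := pair_15 hc hz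
  have e45 := pair_45 hc hz
  have e13 := pair_13 hc hz
  have e34 := pair_34 hc hz
  have e23 := pair_23 hc hz
  have h012 : a {0, 1, 2, 6, 7} = 0 := by
    have : (2 : K) * a {0, 1, 2, 6, 7} = 0 := by
      linear_combination e12 + e15 + e45 - e04 - e02
    exact (mul_eq_zero.1 this).resolve_left h2
  have h013 : a {0, 1, 3, 6, 7} = 0 := by linear_combination e01 - h012
  have h024 : a {0, 2, 4, 6, 7} = 0 := by linear_combination e02 + h012
  have h035 : a {0, 3, 5, 6, 7} = 0 := by linear_combination e03 + h013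
  have h045 : a {0, 4, 5, 6, 7} = 0 := by linear_combination e04 + h024
  have h125 : a {1, 2, 5, 6, 7} = 0 := by linear_combination e12 - h012
  have h134 : a {1, 3, 4, 6, 7} = 0 := by linear_combination e13 - h013
  have h145 : a {1, 4, 5, 6, 7} = 0 := by linear_combination e45 - h045
  have h234 : a {2, 3, 4, 6, 7} = 0 := by linear_combination e34 - h134
  have h235 : a {2, 3, 5, 6, 7} = 0 := by linear_combination e23 - h234
  have hall : ∀ N ∈ nonfaces, Nᶜ ∈ ({{0, 1, 2, 6, 7}, {0, 1, 3, 6, 7}, {0, 2, 4, 6, 7},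
      {0, 3, 5, 6, 7}, {0, 4, 5, 6, 7}, {1, 2, 5, 6, 7}, {1, 3, 4, 6, 7}, {1, 4, 5, 6, 7},
      {2, 3, 4, 6, 7}, {2, 3, 5, 6, 7}} : Finset (Finset (Fin 8))) := by decide +kernel
  intro N hN
  have h := hall N hN
  simp only [mem_insert, mem_singleton] at h
  rcases h with h | h | h | h | h | h | h | h | h | h <;> rw [h] <;> assumption

end Toggle

/-! ### Acyclicity in characteristic different from two -/

/-- the sets of the Koszul complex in multidegree `b` -/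
def Q (m : ℕ) (b : Fin 8 → ℕ) (T : Finset (Fin 8)) : Prop :=
  (∀ v ∈ T, 1 ≤ b v) ∧ P m (fun v => b v - if v ∈ T then 1 else 0)

lemma KK_iff (m : ℕ) (b : Fin 8 →₀ ℕ) (T : Finset (Fin 8)) : KK (P m) b T ↔ Q m b T := by
  unfold KK Q
  have h1 : ind T ≤ b ↔ ∀ v ∈ T, 1 ≤ b v := by
    constructor
    · intro h v hv
      have := h v
      rwa [Pool.Agent.H677R3.EdgeReg.ind_apply, if_pos hv] at this
    · intro h v
      rw [Pool.Agent.H677R3.EdgeReg.ind_apply]
      split_ifs with hv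
      · exact h v hv
      · exact Nat.zero_le _
  have h2 : (⇑(b - ind T) : Fin 8 → ℕ) = fun v => b v - if v ∈ T then 1 else 0 := by
    funext v
    rw [Finsupp.tsub_apply, Pool.Agent.H677R3.EdgeReg.ind_apply]
  rw [h1, h2]

/-- inserting a variable of large exponent -/
lemma Q_insert_big {m : ℕ} {b : Fin 8 → ℕ} {T : Finset (Fin 8)} {v : Fin 8} (h6 : v ≠ 6)
    (h7 : v ≠ 7) (hb : 2 ≤ b v) (hv : v ∉ T) (hQ : Q m b T) : Q m b (insert v T) := by
  refine ⟨fun w hw => ?_, ?_⟩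
  · rcases mem_insert.1 hw with rfl | hw
    · omega
    · exact hQ.1 w hw
  · have e6 : (6 : Fin 8) ∈ insert v T ↔ (6 : Fin 8) ∈ T := by
      rw [mem_insert]; exact or_iff_right (Ne.symm h6)
    have e7 : (7 : Fin 8) ∈ insert v T ↔ (7 : Fin 8) ∈ T := by
      rw [mem_insert]; exact or_iff_right (Ne.symm h7)
    unfold P
    simp only [e6, e7]
    rcases hQ.2 with h | ⟨h, h1 | ⟨N, hN, h1⟩⟩
    · exact Or.inl h
    · exact Or.inr ⟨h, Or.inl h1⟩
    · refine Or.inr ⟨h, Or.inr ⟨N, hN, fun w hw => ?_⟩⟩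
      have h2 : 1 ≤ b w - if w ∈ T then 1 else 0 := h1 w hw
      change 1 ≤ b w - if w ∈ insert v T then 1 else 0
      by_cases hwv : w = v
      · subst hwv
        rw [if_pos (mem_insert_self _ _)]
        omega
      · have h3 : (w ∈ insert v T) ↔ w ∈ T := by rw [mem_insert]; exact or_iff_right hwv
        simp only [h3]
        exact h2

/-- inserting a variable when the degree in `x_6, x_7` is large -/
lemma Q_insert_z {m : ℕ} {b : Fin 8 → ℕ} {T : Finset (Fin 8)} {v : Fin 8} (hb : 1 ≤ b v)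
    (hQ : Q m b T)
    (h : 2 * m + 1 ≤ (b 6 - if (6 : Fin 8) ∈ insert v T then 1 else 0) +
      (b 7 - if (7 : Fin 8) ∈ insert v T then 1 else 0)) : Q m b (insert v T) := by
  refine ⟨fun w hw => ?_, Or.inl h⟩
  rcases mem_insert.1 hw with rfl | hw
  · exact hb
  · exact hQ.1 w hw

/-- inserting a variable when the exponent of `x_6` becomes even -/
lemma Q_insert_even {m : ℕ} {b : Fin 8 → ℕ} {T : Finset (Fin 8)} {v : Fin 8} (hb : 1 ≤ b v)
    (hQ : Q m b T)
    (h : (b 6 - if (6 : Fin 8) ∈ insert v T then 1 else 0) +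
      (b 7 - if (7 : Fin 8) ∈ insert v T then 1 else 0) = 2 * m)
    (he : Even (b 6 - if (6 : Fin 8) ∈ insert v T then 1 else 0)) : Q m b (insert v T) := by
  refine ⟨fun w hw => ?_, Or.inr ⟨h, Or.inl he⟩⟩
  rcases mem_insert.1 hw with rfl | hw
  · exact hb
  · exact hQ.1 w hw

/-- five-element sets in a squarefree multidegree that need the ideal are complements of nonfaces -/
lemma eq_compl {b : Fin 8 → ℕ} {T : Finset (Fin 8)} (hT : T.card = 5)
    (hb : ∀ v, v ≠ 6 → v ≠ 7 → b v ≤ 1) (h : InK (fun v => b v - if v ∈ T then 1 else 0)) :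
    ∃ N ∈ nonfaces, T = Nᶜ := by
  obtain ⟨N, hN, h1⟩ := h
  refine ⟨N, hN, ?_⟩
  obtain ⟨h6, h7, hc⟩ := nonfaces_sub N hN
  apply eq_of_subset_of_card_le
  · intro v hv
    rw [mem_compl]
    intro hvN
    have h2 := h1 v hvN
    have h3 := hb v (fun h => h6 (h ▸ hvN)) (fun h => h7 (h ▸ hvN))
    simp only [if_pos hv] at h2
    omega
  · rw [card_compl, hc, hT]
    simp

lemma compl_mem : ∀ N ∈ nonfaces, (6 : Fin 8) ∈ Nᶜ ∧ (7 : Fin 8) ∈ Nᶜ := by decide +kernel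

lemma nonF_ne : ∀ T ∈ nonF, (6 : Fin 8) ∈ T ∧ (7 : Fin 8) ∈ T ∧ ∀ N ∈ nonfaces, T ≠ Nᶜ := by
  decide +kernel

theorem acyclic {K : Type} [Field K] (h2 : (2 : K) ≠ 0) (m : ℕ) (b : Fin 8 → ℕ)
    (a : Finset (Fin 8) → K) (ha : ∀ T, a T ≠ 0 → Q m b T ∧ T.card = 5) (hc : ∀ T, cd a T = 0) :
    ∃ g : Finset (Fin 8) → K, (∀ T, g T ≠ 0 → Q m b T ∧ T.card = 5 + 1) ∧ ∀ T, cd g T = a T := by
  have hcard : ∀ T, a T ≠ 0 → T.card = 5 := fun T hT => (ha T hT).2
  -- a variable of exponent at least two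
  by_cases hbig : ∃ v, v ≠ 6 ∧ v ≠ 7 ∧ 2 ≤ b v
  · obtain ⟨v, h6, h7, hb⟩ := hbig
    exact toggle v hcard hc fun T hT hv => Q_insert_big h6 h7 hb hv (ha T hT).1
  push Not at hbig
  have hsf : ∀ v, v ≠ 6 → v ≠ 7 → b v ≤ 1 := fun v h6 h7 => Nat.lt_succ_iff.1 (hbig v h6 h7)
  -- the sets that need the ideal
  have hneed : ∀ T, a T ≠ 0 →
      2 * m + 1 ≤ (b 6 - if (6 : Fin 8) ∈ T then 1 else 0) + (b 7 - if (7 : Fin 8) ∈ T then 1 else 0) ∨
      ((b 6 - if (6 : Fin 8) ∈ T then 1 else 0) + (b 7 - if (7 : Fin 8) ∈ T then 1 else 0) = 2 * m ∧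
        (Even (b 6 - if (6 : Fin 8) ∈ T then 1 else 0) ∨ ∃ N ∈ nonfaces, T = Nᶜ)) := by
    intro T hT
    rcases (ha T hT).1.2 with h | ⟨h, h1⟩
    · exact Or.inl h
    · exact Or.inr ⟨h, h1.imp id fun h3 => eq_compl (hcard T hT) hsf h3⟩
  have hmem : ∀ T, a T ≠ 0 → ((6 : Fin 8) ∈ T → 1 ≤ b 6) ∧ ((7 : Fin 8) ∈ T → 1 ≤ b 7) :=
    fun T hT => ⟨fun h => (ha T hT).1.1 6 h, fun h => (ha T hT).1.1 7 h⟩
  -- a nonempty set in the support contains a vertex
  have hvert : ∀ T, a T ≠ 0 → ∃ v, v ≠ 6 ∧ v ≠ 7 ∧ 1 ≤ b v := by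
    intro T hT
    by_contra hcon
    push Not at hcon
    have h3 : T ⊆ {6, 7} := by
      intro v hv
      rw [mem_insert, mem_singleton]
      by_contra h4
      push Not at h4
      have h5 := hcon v h4.1 h4.2
      have h6 := (ha T hT).1.1 v hv
      omega
    have h4 := card_le_card h3
    rw [hcard T hT] at h4
    have h5 : ({6, 7} : Finset (Fin 8)).card = 2 := rfl
    omega
  by_cases hzero : ∀ T, a T = 0
  · exact ⟨0, fun T hT => absurd rfl hT, fun T => by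
      rw [hzero T]; exact Pool.Agent.H677R3.EdgeReg.cd_zero T⟩
  push Not at hzero
  obtain ⟨T0, hT0⟩ := hzero
  obtain ⟨v, hv6, hv7, hbv⟩ := hvert T0 hT0
  have hins6 : ∀ T : Finset (Fin 8), (6 : Fin 8) ∈ insert v T ↔ (6 : Fin 8) ∈ T := fun T => by
    rw [mem_insert]; exact or_iff_right (Ne.symm hv6)
  have hins7 : ∀ T : Finset (Fin 8), (7 : Fin 8) ∈ insert v T ↔ (7 : Fin 8) ∈ T := fun T => by
    rw [mem_insert]; exact or_iff_right (Ne.symm hv7)
  -- if no set needs the ideal we may toggle `v`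
  have hgood : (∀ T, a T ≠ 0 →
      2 * m + 1 ≤ (b 6 - if (6 : Fin 8) ∈ T then 1 else 0) + (b 7 - if (7 : Fin 8) ∈ T then 1 else 0) ∨
      ((b 6 - if (6 : Fin 8) ∈ T then 1 else 0) + (b 7 - if (7 : Fin 8) ∈ T then 1 else 0) = 2 * m ∧
        Even (b 6 - if (6 : Fin 8) ∈ T then 1 else 0))) →
      ∃ g : Finset (Fin 8) → K, (∀ T, g T ≠ 0 → Q m b T ∧ T.card = 5 + 1) ∧
        ∀ T, cd g T = a T := by
    intro h
    refine toggle v hcard hc fun T hT _ => ?_
    rcases h T hT with h3 | ⟨h3, h4⟩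
    · exact Q_insert_z hbv (ha T hT).1 (by simp only [hins6, hins7]; exact h3)
    · exact Q_insert_even hbv (ha T hT).1 (by simp only [hins6, hins7]; exact h3)
        (by simp only [hins6]; exact h4)
  by_cases h67 : b 6 + b 7 = 2 * m + 2 ∧ Even (b 6) ∧ 1 ≤ b 6 ∧ 1 ≤ b 7
  · -- the interesting multidegrees
    obtain ⟨hs, hev, hb6, hb7⟩ := h67
    have hodd : ¬ Even (b 6 - 1) := by
      obtain ⟨k, hk⟩ := hev
      rw [Nat.not_even_iff_odd]
      exact ⟨k - 1, by omega⟩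
    have hz : ∀ T, T ∈ nonF → a T = 0 := by
      intro T hT
      by_contra hne
      obtain ⟨h6, h7, h3⟩ := nonF_ne T hT
      rcases hneed T hne with h | ⟨-, h | ⟨N, hN, h⟩⟩
      · rw [if_pos h6, if_pos h7] at h
        omega
      · rw [if_pos h6] at h
        exact hodd h
      · exact h3 N hN h
    have hN := rp2 h2 hc hz
    apply hgood
    intro T hT
    rcases hneed T hT with h | ⟨h, h3 | ⟨N, hN', h3⟩⟩
    · exact Or.inl h
    · exact Or.inr ⟨h, h3⟩
    · exact absurd (h3 ▸ hN N hN') hT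
  · apply hgood
    intro T hT
    rcases hneed T hT with h | ⟨h, h3 | ⟨N, hN', h3⟩⟩
    · exact Or.inl h
    · exact Or.inr ⟨h, h3⟩
    · obtain ⟨h6, h7⟩ := compl_mem N hN'
      rw [← h3] at h6 h7
      have h8 := hmem T hT
      have h9 := h8.1 h6
      have h10 := h8.2 h7
      by_cases hev : Even (b 6)
      · rw [if_pos h6, if_pos h7] at h
        exact absurd ⟨by omega, hev, h9, h10⟩ h67
      · refine Or.inr ⟨h, ?_⟩
        rw [if_pos h6]
        rw [Nat.not_even_iff_odd] at hev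
        obtain ⟨k, hk⟩ := hev
        exact ⟨k, by omega⟩

/-! ### Characteristic two -/

/-- a chain whose boundary is the fundamental class modulo two -/
def Om : Finset (Finset (Fin 8)) :=
  {{0, 1, 2, 5, 6, 7}, {0, 1, 3, 4, 6, 7}, {0, 1, 4, 5, 6, 7}, {0, 2, 3, 4, 6, 7},
    {0, 2, 3, 5, 6, 7}}

/-- its characteristic function -/
def om (T : Finset (Fin 8)) : ZMod 2 := if T ∈ Om then 1 else 0

lemma om_card : ∀ T ∈ Om, T.card = 6 ∧ (6 : Fin 8) ∈ T ∧ (7 : Fin 8) ∈ T := by decide +kernel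

lemma cd_om_card (T : Finset (Fin 8)) (h : cd om T ≠ 0) : T.card = 5 := by
  unfold cd at h
  obtain ⟨j, hj, hne⟩ := exists_ne_zero_of_sum_ne_zero h
  have h1 : om (insert j T) ≠ 0 := fun h0 => hne (by rw [h0, mul_zero])
  have h2 : insert j T ∈ Om := by
    by_contra h3
    exact h1 (if_neg h3)
  have h3 := (om_card _ h2).1
  rw [card_insert_of_notMem (by simpa using hj)] at h3
  omega

lemma cd_om_nonface : ∀ T : Finset (Fin 8), (6 : Fin 8) ∈ T → (7 : Fin 8) ∈ T → cd om T ≠ 0 →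
    ∃ N ∈ nonfaces, T = Nᶜ := by
  decide +kernel

lemma cd_om_ne : cd om {0, 1, 2, 6, 7} ≠ 0 := by decide +kernel

/-- the interesting multidegree -/
noncomputable def b0 (m : ℕ) : Fin 8 →₀ ℕ :=
  Finsupp.equivFunOnFinite.symm ![1, 1, 1, 1, 1, 1, 2, 2 * m]

lemma b0_apply (m : ℕ) (v : Fin 8) : b0 m v = ![1, 1, 1, 1, 1, 1, 2, 2 * m] v := rfl

lemma b0_pos {m : ℕ} (hm : 1 ≤ m) (v : Fin 8) : 1 ≤ b0 m v := by
  rw [b0_apply]
  fin_cases v <;> simp <;> omega

lemma b0_one {m : ℕ} (v : Fin 8) (h6 : v ≠ 6) (h7 : v ≠ 7) : b0 m v = 1 := by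
  rw [b0_apply]
  fin_cases v <;> first | rfl | exact absurd rfl h6 | exact absurd rfl h7

theorem tor_ne (m : ℕ) (hm : 1 ≤ m) :
    Pool.Agent.H677R3.EdgeReg.TorNe (monIdeal (ZMod 2) gens ^ m) 5 (2 * m + 3) := by
  have e6 : b0 m 6 = 2 := rfl
  have e7 : b0 m 7 = 2 * m := rfl
  refine Pool.Agent.H677R3.EdgeReg.lower_transfer _ (P m) (mem_pow (ZMod 2) m) 5 (2 * m + 3)
    (b0 m) ?_ (cd om) ?_ ?_ ?_
  · simp only [b0_apply, Fin.sum_univ_eight]
    simp
    omega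
  · intro T hT
    refine ⟨?_, cd_om_card T hT⟩
    rw [KK_iff]
    refine ⟨fun v _ => b0_pos hm v, ?_⟩
    by_cases h67 : (6 : Fin 8) ∈ T ∧ (7 : Fin 8) ∈ T
    · obtain ⟨N, hN, hTN⟩ := cd_om_nonface T h67.1 h67.2 hT
      right
      simp only [if_pos h67.1, if_pos h67.2, e6, e7]
      refine ⟨by omega, Or.inr ⟨N, hN, fun v hv => ?_⟩⟩
      have hvT : v ∉ T := by
        rw [hTN, mem_compl, not_not]
        exact hv
      simp only [if_neg hvT]
      exact b0_pos hm v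
    · left
      simp only [e6, e7]
      rw [not_and_or] at h67
      rcases h67 with h | h
      · rw [if_neg h]
        split_ifs <;> omega
      · rw [if_neg h]
        split_ifs <;> omega
  · exact fun T => Pool.Agent.H677R3.EdgeReg.cd_cd om T
  · rintro ⟨g, hg1, hg2⟩
    apply cd_om_ne
    rw [← hg2]
    unfold cd
    refine Finset.sum_eq_zero fun j hj => ?_
    have : g (insert j {0, 1, 2, 6, 7}) = 0 := by
      by_contra hne
      obtain ⟨hK, hc⟩ := hg1 _ hne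
      rw [KK_iff] at hK
      have m6 : (6 : Fin 8) ∈ insert j ({0, 1, 2, 6, 7} : Finset (Fin 8)) := by simp
      have m7 : (7 : Fin 8) ∈ insert j ({0, 1, 2, 6, 7} : Finset (Fin 8)) := by simp
      rcases hK.2 with h | ⟨-, h | ⟨N, hN, h⟩⟩
      · simp only [if_pos m6, if_pos m7, e6, e7] at h
        omega
      · simp only [if_pos m6, e6] at h
        exact absurd h (by decide)
      · obtain ⟨h6, h7, hNc⟩ := nonfaces_sub N hN
        have hdisj : Disjoint N (insert j ({0, 1, 2, 6, 7} : Finset (Fin 8))) := by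
          rw [Finset.disjoint_left]
          intro v hv hvT
          have h8 := h v hv
          simp only [if_pos hvT] at h8
          rw [b0_one v (fun h => h6 (h ▸ hv)) (fun h => h7 (h ▸ hv))] at h8
          omega
        have h9 := card_le_univ (N ∪ insert j ({0, 1, 2, 6, 7} : Finset (Fin 8)))
        rw [card_union_of_disjoint hdisj, hNc, hc] at h9
        simp at h9
    rw [this, mul_zero]

/-! ### The result -/

/-- For the monomial ideal `I = (z_1^2, z_2^2, z_1 z_2 I_Δ)` in eight variables the fifth Betti number of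
`I ^ ℓ` is zero for all `ℓ ≥ 1` over `ℚ` (and over every field of characteristic different from two),
but nonzero for all `ℓ ≥ 1` over `𝔽_2`. Hence the fifth Kodiyalam polynomials of `I` over `ℚ` and over
`𝔽_2` have different degrees. -/
theorem result :
    (∀ (K : Type) [Field K], (2 : K) ≠ 0 → ∀ ℓ : ℕ, betti (monIdeal K gens ^ ℓ) 5 = 0) ∧
    (∀ ℓ : ℕ, 1 ≤ ℓ → betti (monIdeal (ZMod 2) gens ^ ℓ) 5 ≠ 0) ∧
    ∀ PQ PF : Polynomial ℚ,
      (∀ᶠ ℓ : ℕ in Filter.atTop, (betti (monIdeal ℚ gens ^ ℓ) 5 : ℚ) = PQ.eval (ℓ : ℚ)) →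
      (∀ᶠ ℓ : ℕ in Filter.atTop, (betti (monIdeal (ZMod 2) gens ^ ℓ) 5 : ℚ) = PF.eval (ℓ : ℚ)) →
      PQ.degree = ⊥ ∧ PF.degree ≠ ⊥ := by
  have h1 : ∀ (K : Type) [Field K], (2 : K) ≠ 0 → ∀ ℓ : ℕ, betti (monIdeal K gens ^ ℓ) 5 = 0 := by
    intro K _ h2 m
    refine betti_eq_zero _ (P m) (mem_pow K m) 5 fun b a ha hc => ?_
    simp only [KK_iff] at ha ⊢
    exact acyclic h2 m b a ha hc
  have h2 : ∀ ℓ : ℕ, 1 ≤ ℓ → betti (monIdeal (ZMod 2) gens ^ ℓ) 5 ≠ 0 :=
    fun m hm => betti_ne_zero (tor_ne m hm)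
  refine ⟨h1, h2, fun PQ PF hQ hF => ⟨?_, ?_⟩⟩
  · rw [Polynomial.degree_eq_bot]
    obtain ⟨N, hN⟩ := Filter.eventually_atTop.1 hQ
    apply Polynomial.eq_zero_of_infinite_isRoot
    refine Set.infinite_of_injective_forall_mem (f := fun k : ℕ => ((N + k : ℕ) : ℚ)) ?_ ?_
    · intro k k' hkk
      have h3 : ((N + k : ℕ) : ℚ) = ((N + k' : ℕ) : ℚ) := hkk
      have h4 := Nat.cast_injective h3
      omega
    · intro k
      have h3 := hN (N + k) (by omega)
      rw [h1 ℚ two_ne_zero] at h3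
      exact h3.symm.trans (by simp)
  · rw [Ne, Polynomial.degree_eq_bot]
    rintro rfl
    obtain ⟨N, hN⟩ := Filter.eventually_atTop.1 hF
    have h3 := hN (N + 1) (by omega)
    rw [Polynomial.eval_zero] at h3
    exact h2 (N + 1) (by omega) (by exact_mod_cast h3)

end Pool.Agent.Results.MP_76aa63_al.ProjectivePlane
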